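import Mathlib

/-! Sums of three elements of a set `G` of natural numbers such that four large classes of numbers
always contain two numbers of different classes with difference in `G`. -/

set_option autoImplicit false

namespace Pool.Agent.Q124.Gap

open Finset

/-- four classes of `K` numbers contain two numbers of different classes with difference in `G` -/
def Four (G : Set ℕ) (K : ℕ) : Prop :=
  ∀ H : Fin 4 → Fin K → ℕ, Function.Injective (fun x : Fin 4 × Fin K => H x.1 x.2) →
    ∃ g g' i i', g ≠ g' ∧ H g i < H g' i' ∧ H g' i' - H g i ∈ G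

/-- `x ≠ a` and their distance is not in `G` -/
def Bad (G : Set ℕ) (x a : ℕ) : Prop := x ≠ a ∧ (x - a) + (a - x) ∉ G

theorem no_pair {G : Set ℕ} {K N : ℕ} (hF : Four G K)
    (hN : ∀ x ∈ G, ∀ y ∈ G, ∀ z ∈ G, x + y + z ≠ N)
    (A B : Fin K → ℕ) (hA : Function.Injective A) (hB : Function.Injective B)
    (hAG : ∀ i, A i ∈ G ∧ 2 * A i < N) (hBG : ∀ i, B i ∈ G ∧ 2 * B i < N)
    (hAB : ∀ i j, Bad G (A i) (B j)) : False := by
  obtain ⟨H, hH⟩ : ∃ H : Fin 4 → Fin K → ℕ,
    H = ![A, B, fun i => N - A i, fun i => N - B i] := ⟨_, rfl⟩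
  have h0 : ∀ i, H 0 i = A i := fun i => by rw [hH]; rfl
  have h1 : ∀ i, H 1 i = B i := fun i => by rw [hH]; rfl
  have h2 : ∀ i, H 2 i = N - A i := fun i => by rw [hH]; rfl
  have h3 : ∀ i, H 3 i = N - B i := fun i => by rw [hH]; rfl
  have hinj : Function.Injective (fun x : Fin 4 × Fin K => H x.1 x.2) := by
    rintro ⟨g, i⟩ ⟨g', i'⟩ h
    have h' : H g i = H g' i' := h
    have a1 := (hAG i).2
    have a2 := (hAG i').2
    have b1 := (hBG i).2
    have b2 := (hBG i').2
    have c1 := (hAB i i').1
    have c2 := (hAB i' i).1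
    have e1 : A i = A i' → i = i' := fun e => hA e
    have e2 : B i = B i' → i = i' := fun e => hB e
    fin_cases g <;> fin_cases g' <;>
      simp only [Fin.zero_eta, Fin.isValue, Fin.mk_one, Fin.reduceFinMk, h0, h1, h2, h3] at h' ⊢ <;>
      first
      | (exfalso; omega)
      | (rw [e1 (by omega)])
      | (rw [e2 (by omega)])
  obtain ⟨g, g', i, i', hg, hlt, hd⟩ := hF H hinj
  have a1 := hAG i
  have a2 := hAG i'
  have b1 := hBG i
  have b2 := hBG i'
  have c1 := (hAB i i').2
  have c2 := (hAB i' i).2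
  have key : ∀ x y z : ℕ, x ∈ G → y ∈ G → z ∈ G → x + y + z = N → False :=
    fun x y z hx hy hz h => hN x hx y hy z hz h
  fin_cases g <;> fin_cases g' <;>
    simp only [Fin.zero_eta, Fin.isValue, Fin.mk_one, Fin.reduceFinMk, h0, h1, h2, h3] at hlt hd hg
  · exact hg rfl
  · exact c1 (by rwa [show (A i - B i') + (B i' - A i) = B i' - A i by omega])
  · exact key _ _ _ a1.1 a2.1 hd (by omega)
  · exact key _ _ _ a1.1 b2.1 hd (by omega)
  · exact c2 (by rwa [show (A i' - B i) + (B i - A i') = A i' - B i by omega])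
  · exact hg rfl
  · exact key _ _ _ b1.1 a2.1 hd (by omega)
  · exact key _ _ _ b1.1 b2.1 hd (by omega)
  · omega
  · omega
  · exact hg rfl
  · exact c1 (by rwa [show (A i - B i') + (B i' - A i) = N - B i' - (N - A i) by omega])
  · omega
  · omega
  · exact c2 (by rwa [show (A i' - B i) + (B i - A i') = N - A i' - (N - B i) by omega])
  · exact hg rfl

open Classical in
theorem few_bad {G : Set ℕ} {K N : ℕ} (hK : 1 ≤ K) (hF : Four G K)
    (hN : ∀ x ∈ G, ∀ y ∈ G, ∀ z ∈ G, x + y + z ≠ N)
    (A : Finset ℕ) (hA : ∀ x ∈ A, x ∈ G ∧ 2 * x < N) (d s : ℕ)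
    (hs : s * (s + K * 2 ^ s) + K * A.card < s * d) :
    (A.filter fun a => d ≤ (A.filter fun x => Bad G x a).card).card < s := by
  by_contra hcon
  push Not at hcon
  obtain ⟨S, hSB, hSs⟩ := exists_subset_card_eq hcon
  have hSA : ∀ a ∈ S, a ∈ A := fun a ha => (mem_filter.1 (hSB ha)).1
  have hSd : ∀ a ∈ S, d ≤ (A.filter fun x => Bad G x a).card := fun a ha =>
    (mem_filter.1 (hSB ha)).2
  set pat : ℕ → Finset ℕ := fun x => S.filter fun a => Bad G x a with hpat
  have hpatS : ∀ x, (pat x).card ≤ s := fun x => by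
    rw [← hSs]
    exact card_le_card (filter_subset _ _)
  set E : Finset ℕ := A.filter fun x => K ≤ (pat x).card with hE
  have hEc : E.card < K * 2 ^ s := by
    by_contra hE2
    push Not at hE2
    obtain ⟨P, hP, hPc⟩ := exists_le_card_fiber_of_mul_le_card_of_maps_to
      (s := E) (t := S.powerset) (f := pat) (n := K)
      (fun x _ => mem_powerset.2 (filter_subset _ _)) ⟨∅, empty_mem_powerset S⟩
      (by rw [card_powerset, hSs, mul_comm]; exact hE2)
    obtain ⟨X, hX, hXc⟩ := exists_subset_card_eq hPc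
    have hXn : X.Nonempty := by
      rw [← card_pos, hXc]
      omega
    obtain ⟨x₀, hx₀⟩ := hXn
    have hx₁ := mem_filter.1 (hX hx₀)
    have hPK : K ≤ P.card := by
      rw [← hx₁.2]
      exact (mem_filter.1 hx₁.1).2
    obtain ⟨Q, hQ, hQc⟩ := exists_subset_card_eq hPK
    refine no_pair hF hN (fun i => X.orderEmbOfFin hXc i) (fun i => Q.orderEmbOfFin hQc i)
      (fun i j h => (X.orderEmbOfFin hXc).injective h)
      (fun i j h => (Q.orderEmbOfFin hQc).injective h) (fun i => ?_) (fun i => ?_) (fun i j => ?_)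
    · have h := hX (X.orderEmbOfFin_mem hXc i)
      exact hA _ (mem_filter.1 (mem_filter.1 h).1).1
    · have h := hQ (Q.orderEmbOfFin_mem hQc i)
      exact hA _ (hSA _ (mem_powerset.1 hP h))
    · have h1 := hX (X.orderEmbOfFin_mem hXc i)
      have h2 := hQ (Q.orderEmbOfFin_mem hQc j)
      rw [← (mem_filter.1 h1).2] at h2
      exact (mem_filter.1 h2).2
  have hsum1 : s * d ≤ ∑ a ∈ S, (A.filter fun x => Bad G x a).card := by
    rw [← hSs, ← smul_eq_mul]
    exact card_nsmul_le_sum S _ d hSd
  have hsum2 : ∑ a ∈ S, (A.filter fun x => Bad G x a).card = ∑ x ∈ A, (pat x).card := by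
    simp only [hpat, card_filter]
    exact sum_comm
  have hsum3 : ∑ x ∈ A, (pat x).card ≤ ∑ x ∈ A, (K + if x ∈ E then s else 0) := by
    refine sum_le_sum fun x hx => ?_
    by_cases h : K ≤ (pat x).card
    · rw [if_pos (mem_filter.2 ⟨hx, h⟩)]
      exact (hpatS x).trans (Nat.le_add_left _ _)
    · push Not at h
      omega
  have hsum4 : ∑ x ∈ A, (K + if x ∈ E then s else 0) = K * A.card + s * E.card := by
    rw [sum_add_distrib, sum_const, smul_eq_mul, ← sum_filter, sum_const, smul_eq_mul, mul_comm,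
      mul_comm s]
    congr 3
    ext x
    simp only [hE, mem_filter]
    tauto
  have h5 : s * E.card ≤ s * (s + K * 2 ^ s) :=
    Nat.mul_le_mul_left s (by omega)
  omega

theorem exists_step (P : ℕ → Prop) (h0 : P 0) : ∀ r, ¬ P r → ∃ i < r, P i ∧ ¬ P (i + 1) := by
  intro r
  induction r with
  | zero => exact fun h => absurd h0 h
  | succ r ih =>
    intro h
    by_cases hr : P r
    · exact ⟨r, Nat.lt_succ_self r, hr, h⟩
    · obtain ⟨i, hi, h1⟩ := ih hr
      exact ⟨i, hi.trans (Nat.lt_succ_self r), h1⟩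

open Classical in
/-- few multiples of `q` are missing -/
theorem few_missing {G : Set ℕ} (q h L M a : ℕ) (hq : 1 ≤ q) (hh : 1 ≤ h) (hd : h ∣ q)
    (hMa : q * M < a) (hL : ∀ u, ∃ k, u < k ∧ k ≤ u + L ∧ q * k ∈ G) :
    ((Icc 1 M).filter fun y => q * y ∉ G).card ≤
      L + q * ((range a).filter fun x => x ∈ G ∧ x + h ∉ G).card * L := by
  set X := (range a).filter fun x => x ∈ G ∧ x + h ∉ G with hX
  set T := (range M).filter fun k => q * k ∈ G ∧ q * (k + 1) ∉ G with hT
  obtain ⟨r, hr⟩ := hd
  have hr1 : r ≤ q := by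
    rw [hr]
    exact Nat.le_mul_of_pos_left r hh
  have hTc : T.card ≤ q * X.card := by
    have h1 : T ⊆ ((range r) ×ˢ X).image fun p => (p.2 - p.1 * h) / q := by
      intro k hk
      rw [hT, mem_filter, mem_range] at hk
      obtain ⟨i, hi, hi1, hi2⟩ := exists_step (fun i => q * k + i * h ∈ G)
        (by simpa using hk.2.1) r (by
          have : q * k + r * h = q * (k + 1) := by rw [hr]; ring
          rw [this]; exact hk.2.2)
      rw [mem_image]
      refine ⟨(i, q * k + i * h), ?_, ?_⟩
      · rw [mem_product, mem_range, hX, mem_filter, mem_range]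
        refine ⟨hi, ?_, hi1, ?_⟩
        · have h2 : i * h < r * h := Nat.mul_lt_mul_of_pos_right hi hh
          have h3 : q * (k + 1) ≤ q * M := Nat.mul_le_mul_left q hk.1
          have h4 : q * k + r * h = q * (k + 1) := by rw [hr]; ring
          show q * k + i * h < a
          omega
        · have : q * k + i * h + h = q * k + (i + 1) * h := by ring
          show q * k + i * h + h ∉ G
          rw [this]; exact hi2
      · show (q * k + i * h - i * h) / q = k
        rw [Nat.add_sub_cancel, Nat.mul_div_cancel_left k hq]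
    refine (card_le_card h1).trans (card_image_le.trans ?_)
    rw [card_product, card_range]
    exact Nat.mul_le_mul_right _ hr1
  have hY : ((Icc 1 M).filter fun y => q * y ∉ G) ⊆ Icc 1 L ∪ T.biUnion fun k => Ioc k (k + L) := by
    intro y hy
    rw [mem_filter, mem_Icc] at hy
    rw [mem_union]
    by_cases hyL : y ≤ L
    · exact Or.inl (mem_Icc.2 ⟨hy.1.1, hyL⟩)
    · right
      push Not at hyL
      obtain ⟨k, hk1, hk2, hk3⟩ := hL (y - 1 - L)
      have hky : k ≤ y - 1 := by omega
      set k₀ := Nat.findGreatest (fun k => q * k ∈ G) (y - 1) with hk₀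
      have h1 : k ≤ k₀ := Nat.le_findGreatest hky hk3
      have h2 : q * k₀ ∈ G := Nat.findGreatest_spec (P := fun k => q * k ∈ G) hky hk3
      have h3 : k₀ ≤ y - 1 := Nat.findGreatest_le _
      have h4 : q * (k₀ + 1) ∉ G := by
        by_cases h5 : k₀ + 1 ≤ y - 1
        · exact Nat.findGreatest_is_greatest (P := fun k => q * k ∈ G) (Nat.lt_succ_self k₀) h5
        · have : k₀ + 1 = y := by omega
          rw [this]; exact hy.2
      rw [mem_biUnion]
      refine ⟨k₀, ?_, ?_⟩
      · rw [hT, mem_filter, mem_range]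
        exact ⟨by omega, h2, h4⟩
      · rw [mem_Ioc]
        omega
  refine (card_le_card hY).trans ((card_union_le _ _).trans ?_)
  rw [Nat.card_Icc]
  have h6 : (T.biUnion fun k => Ioc k (k + L)).card ≤ T.card * L :=
    card_biUnion_le_card_mul _ _ _ fun k _ => by simp
  have h7 : T.card * L ≤ q * X.card * L := Nat.mul_le_mul_right L hTc
  omega

open Classical in
theorem few_shift {G : Set ℕ} {N : ℕ} (A : Finset ℕ) (hA : ∀ x, x ∈ A ↔ x ∈ G ∧ 2 * x < N) (d a h : ℕ)
    (hh : 1 ≤ h) (haA : 2 * (a + h) < N)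
    (h1 : (A.filter fun x => Bad G x a).card < d)
    (h2 : (A.filter fun x => Bad G x (a + h)).card < d) :
    ((range a).filter fun x => x ∈ G ∧ x + h ∉ G).card ≤ 2 * d := by
  set X := (range a).filter fun x => x ∈ G ∧ x + h ∉ G with hX
  have hmem : ∀ x ∈ X, x < a ∧ x ∈ G ∧ x + h ∉ G := fun x hx => by
    rw [hX, mem_filter, mem_range] at hx
    exact hx
  have e1 : (X.filter fun x => Bad G x a).card < d := by
    refine lt_of_le_of_lt (card_le_card ?_) h1
    intro x hx
    rw [mem_filter] at hx ⊢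
    have := hmem x hx.1
    exact ⟨(hA x).2 ⟨this.2.1, by omega⟩, hx.2⟩
  have e2 : (X.filter fun x => ¬ Bad G x a).card < d := by
    refine lt_of_le_of_lt ?_ h2
    refine card_le_card_of_injOn (fun x => a - x) ?_ ?_
    · intro x hx
      have hx' := mem_filter.1 (mem_coe.1 hx)
      have h3 := hmem x hx'.1
      have h4 : a - x ∈ G := by
        have h5 := hx'.2
        unfold Bad at h5
        push Not at h5
        have h6 := h5 (by omega)
        rwa [show (x - a) + (a - x) = a - x by omega] at h6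
      have h7 : 2 * (a - x) < N := by omega
      refine mem_coe.2 (mem_filter.2 ⟨(hA (a - x)).2 ⟨h4, h7⟩, ?_, ?_⟩)
      · show a - x ≠ a + h
        omega
      · show (a - x - (a + h)) + (a + h - (a - x)) ∉ G
        rw [show (a - x - (a + h)) + (a + h - (a - x)) = x + h by omega]
        exact h3.2.2
    · intro x hx y hy hxy
      have hx' := hmem x (mem_filter.1 (mem_coe.1 hx)).1
      have hy' := hmem y (mem_filter.1 (mem_coe.1 hy)).1
      have hxy' : a - x = a - y := hxy
      omega
  have e3 := card_filter_add_card_filter_not (s := X) (fun x => Bad G x a)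
  omega

end Pool.Agent.Q124.Gap
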