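import Pool.Agent.Q124.Gap.Core

/-! Every large multiple of a suitable number is a sum of three elements of `G`. -/

set_option autoImplicit false

namespace Pool.Agent.Q124.Gap

open Finset

open Classical in
theorem sum_three {G : Set ℕ} {K : ℕ} (hK : 1 ≤ K) (hF : Four G K)
    (hW : ∀ q, 1 ≤ q → ∃ L, ∀ u, ∃ k, u < k ∧ k ≤ u + L ∧ q * k ∈ G) :
    ∃ q, 1 ≤ q ∧ ∃ n₀, ∀ n, n₀ ≤ n → ∃ x ∈ G, ∃ y ∈ G, ∃ z ∈ G, x + y + z = q * n := by
  obtain ⟨W, hWW⟩ := hW 1 le_rfl
  have hW1 : 1 ≤ W := by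
    obtain ⟨k, h1, h2, -⟩ := hWW 0
    omega
  obtain ⟨q, hq⟩ : ∃ q, q = (2 * W).factorial := ⟨_, rfl⟩
  have hq1 : 1 ≤ q := by rw [hq]; exact Nat.factorial_pos _
  obtain ⟨L, hL⟩ := hW q hq1
  have hL1 : 1 ≤ L := by
    obtain ⟨k, h1, h2, -⟩ := hL 0
    omega
  obtain ⟨c, hc⟩ : ∃ c, c = 100 * L * q := ⟨_, rfl⟩
  have hc1 : 1 ≤ c := by
    rw [hc]
    exact Nat.mul_pos (by omega) hq1
  obtain ⟨s, hs⟩ : ∃ s, s = 2 * K * q * c := ⟨_, rfl⟩
  obtain ⟨F, hFd⟩ : ∃ F, F = s * (s + K * 2 ^ s) := ⟨_, rfl⟩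
  refine ⟨q, hq1, F + s + 1000 * (L + 1) + 100 * (W * s) + 100, fun n hn => ?_⟩
  by_contra hcon
  push Not at hcon
  obtain ⟨N, hN⟩ : ∃ N, N = q * n := ⟨_, rfl⟩
  rw [← hN] at hcon
  have hnN : n ≤ N := by
    rw [hN]
    exact Nat.le_mul_of_pos_left n hq1
  obtain ⟨d, hd⟩ : ∃ d, d = n / c := ⟨_, rfl⟩
  have hcd1 : n < c * d + c := by
    rw [hd]
    have := Nat.lt_mul_div_succ n hc1
    linarith [this, Nat.mul_succ c (n / c)]
  have hcd2 : c * d ≤ n := by
    rw [hd]
    exact Nat.mul_div_le n c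
  obtain ⟨A, hAdef⟩ : ∃ A : Finset ℕ, A = (range N).filter fun x => x ∈ G ∧ 2 * x < N := ⟨_, rfl⟩
  have hA : ∀ x, x ∈ A ↔ x ∈ G ∧ 2 * x < N := fun x => by
    rw [hAdef, mem_filter, mem_range]
    constructor
    · exact fun h => h.2
    · exact fun h => ⟨by omega, h⟩
  have hAc : A.card ≤ N := by
    rw [hAdef]
    exact (card_filter_le _ _).trans (by rw [card_range])
  have hbad := few_bad hK hF hcon A (fun x hx => (hA x).1 hx) d s (by
    have hKq : 1 ≤ K * q := Nat.mul_pos hK hq1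
    have h2 : 2 * K * q * n < 2 * K * q * (c * d + c) :=
      Nat.mul_lt_mul_of_pos_left hcd1 (by rw [mul_assoc]; omega)
    have h3 : n ≤ K * q * n := Nat.le_mul_of_pos_left n hKq
    have h4 : K * A.card ≤ K * N := Nat.mul_le_mul_left K hAc
    have h5 : K * N = K * q * n := by rw [hN]; ring
    have h6 : 2 * K * q * n = 2 * (K * q * n) := by ring
    have h7 : 2 * K * q * (c * d + c) = s * d + s := by rw [hs]; ring
    rw [← hFd]
    omega)
  set B := A.filter fun a => d ≤ (A.filter fun x => Bad G x a).card with hB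
  have hnB : ∀ a ∈ A, a ∉ B → (A.filter fun x => Bad G x a).card < d := by
    intro a ha hab
    by_contra h
    push Not at h
    exact hab (mem_filter.2 ⟨ha, h⟩)
  obtain ⟨m, hm⟩ : ∃ m, m = (N - 1) / 2 := ⟨_, rfl⟩
  choose fa hfa1 hfa2 hfa3 using hWW
  have hfaG : ∀ u, fa u ∈ G := fun u => by
    have := hfa3 u
    rwa [one_mul] at this
  have hblock : ∃ i < s, fa (m - 2 * (W * (i + 1))) ∉ B ∧ fa (m - 2 * (W * (i + 1)) + W) ∉ B := by
    by_contra hno
    push Not at hno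
    have hcard : (range s).card ≤ B.card := by
      refine card_le_card_of_injOn (fun i => if fa (m - 2 * (W * (i + 1))) ∈ B then
        fa (m - 2 * (W * (i + 1))) else fa (m - 2 * (W * (i + 1)) + W)) ?_ ?_
      · intro i hi
        have hi' : i < s := mem_range.1 (mem_coe.1 hi)
        show (if fa (m - 2 * (W * (i + 1))) ∈ B then
          fa (m - 2 * (W * (i + 1))) else fa (m - 2 * (W * (i + 1)) + W)) ∈ (B : Set ℕ)
        split_ifs with h
        · exact h
        · exact hno i hi' h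
      · have hrange : ∀ i, m - 2 * (W * (i + 1)) < (if fa (m - 2 * (W * (i + 1))) ∈ B then
            fa (m - 2 * (W * (i + 1))) else fa (m - 2 * (W * (i + 1)) + W)) ∧
            (if fa (m - 2 * (W * (i + 1))) ∈ B then
            fa (m - 2 * (W * (i + 1))) else fa (m - 2 * (W * (i + 1)) + W)) ≤
              m - 2 * (W * (i + 1)) + 2 * W := by
          intro i
          have h1 := hfa1 (m - 2 * (W * (i + 1)))
          have h2 := hfa2 (m - 2 * (W * (i + 1)))
          have h3 := hfa1 (m - 2 * (W * (i + 1)) + W)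
          have h4 := hfa2 (m - 2 * (W * (i + 1)) + W)
          split_ifs <;> omega
        have hlt : ∀ i j, i < j → j < s → (if fa (m - 2 * (W * (i + 1))) ∈ B then
            fa (m - 2 * (W * (i + 1))) else fa (m - 2 * (W * (i + 1)) + W)) ≠
            (if fa (m - 2 * (W * (j + 1))) ∈ B then
            fa (m - 2 * (W * (j + 1))) else fa (m - 2 * (W * (j + 1)) + W)) := by
          intro i j hij hj
          have h1 := (hrange i).1
          have h2 := (hrange j).2
          have h3 : W * (i + 1) ≤ W * j := Nat.mul_le_mul_left W hij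
          have h4 : W * (j + 1) = W * j + W := by ring
          have h5 : W * (j + 1) ≤ W * s := Nat.mul_le_mul_left W hj
          have h6 : 2 * (W * s) ≤ m := by omega
          omega
        intro i hi j hj hij
        have hi' : i < s := mem_range.1 (mem_coe.1 hi)
        have hj' : j < s := mem_range.1 (mem_coe.1 hj)
        rcases lt_trichotomy i j with h | h | h
        · exact absurd hij (hlt i j h hj')
        · exact h
        · exact absurd hij.symm (hlt j i h hi')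
    rw [card_range] at hcard
    omega
  obtain ⟨i, his, haB, hbB⟩ := hblock
  obtain ⟨u, hu⟩ : ∃ u, u = m - 2 * (W * (i + 1)) := ⟨_, rfl⟩
  rw [← hu] at haB hbB
  have hWi : W * (i + 1) ≤ W * s := Nat.mul_le_mul_left W his
  have hWi1 : W * 1 ≤ W * (i + 1) := Nat.mul_le_mul_left W (by omega)
  obtain ⟨a, ha⟩ : ∃ a, a = fa u := ⟨_, rfl⟩
  obtain ⟨b, hb⟩ : ∃ b, b = fa (u + W) := ⟨_, rfl⟩
  have ha1 : u < a := by rw [ha]; exact hfa1 u
  have ha2 : a ≤ u + W := by rw [ha]; exact hfa2 u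
  have hb1 : u + W < b := by rw [hb]; exact hfa1 _
  have hb2 : b ≤ u + W + W := by rw [hb]; exact hfa2 _
  have haG : a ∈ G := by rw [ha]; exact hfaG u
  have hbG : b ∈ G := by rw [hb]; exact hfaG _
  rw [← ha] at haB
  rw [← hb] at hbB
  have hbN : 2 * b < N := by omega
  have haA : a ∈ A := (hA a).2 ⟨haG, by omega⟩
  have hbA : b ∈ A := (hA b).2 ⟨hbG, hbN⟩
  obtain ⟨h, hh⟩ : ∃ h, h = b - a := ⟨_, rfl⟩
  have hbah : b = a + h := by omega
  have hh1 : 1 ≤ h := by omega
  have hhq : h ∣ q := by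
    rw [hq]
    exact Nat.dvd_factorial hh1 (by omega)
  have hX := few_shift A hA d a h hh1 (by omega) (hnB a haA haB) (by
    rw [← hbah]
    exact hnB b hbA hbB)
  obtain ⟨M, hM⟩ : ∃ M, M = 2 * n / 5 := ⟨_, rfl⟩
  have hMa : q * M < a := by
    have h1 : 5 * (q * M) ≤ 2 * N := by
      have : 5 * M ≤ 2 * n := by omega
      calc 5 * (q * M) = q * (5 * M) := by ring
        _ ≤ q * (2 * n) := Nat.mul_le_mul_left q this
        _ = 2 * N := by rw [hN]; ring
    omega
  have hY := few_missing q h L M a hq1 hh1 hhq hMa hL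
  set Y := (Icc 1 M).filter fun y => q * y ∉ G with hYdef
  obtain ⟨t, ht⟩ : ∃ t, t = q * (2 * d) * L := ⟨_, rfl⟩
  have hYc : Y.card ≤ L + t := by
    refine hY.trans ?_
    rw [ht]
    exact Nat.add_le_add_left (Nat.mul_le_mul_right L (Nat.mul_le_mul_left q hX)) L
  have ht50 : 50 * t ≤ n := by
    have : 50 * t = c * d := by rw [ht, hc]; ring
    rw [this]
    exact hcd2
  have hnotY : ∀ y, 1 ≤ y → y ≤ M → y ∉ Y → q * y ∈ G := by
    intro y h1 h2 h3
    by_contra h4
    exact h3 (mem_filter.2 ⟨mem_Icc.2 ⟨h1, h2⟩, h4⟩)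
  obtain ⟨k, hk, hkY⟩ : ∃ k ∈ Icc (n / 4 + 1) (n / 3), k ∉ Y := by
    apply exists_mem_notMem_of_card_lt_card
    rw [Nat.card_Icc]
    omega
  rw [mem_Icc] at hk
  obtain ⟨j, hj, hjY⟩ : ∃ j ∈ Icc (n - k - M) M, j ∉ Y ∪ Y.image (fun y => n - k - y) := by
    apply exists_mem_notMem_of_card_lt_card
    refine lt_of_le_of_lt (card_union_le _ _) ?_
    refine lt_of_le_of_lt (Nat.add_le_add_left card_image_le _) ?_
    rw [Nat.card_Icc]
    omega
  rw [mem_Icc] at hj
  rw [mem_union, not_or, mem_image] at hjY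
  have g1 := hnotY k (by omega) (by omega) hkY
  have g2 := hnotY j (by omega) hj.2 hjY.1
  have g3 := hnotY (n - k - j) (by omega) (by omega) (fun h => hjY.2 ⟨_, h, by omega⟩)
  refine hcon _ g1 _ g2 _ g3 ?_
  rw [hN, ← mul_add, ← mul_add]
  congr 1
  omega

end Pool.Agent.Q124.Gap
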